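import Pool.Agent.H815.QC.Stm

/-!
# QC: `S_R3`, inclusions of parabolic pieces on the second side
-/

set_option autoImplicit false

namespace Pool.Agent.H670.QC

open Pool.Agent.Y110.FJ Pool.Agent.T2H65.GP Pool.Agent.H815.QC

theorem R3_proof (hB3 : S_B3) (hR1 : S_R1) : Pool.Agent.H815.QC.S_R3 := by
  intro V _ Λ N _ β hβ b₁ S₁ b₂ S₂ hle
  obtain ⟨n, hn⟩ := hR1 V Λ N β hβ b₂ S₂
  set x' : P2 Λ := b₂⁻¹ * β n * b₂ with hx'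
  set c : P2 Λ := b₂⁻¹ * b₁ with hc
  have h1 : b₁⁻¹ * β n * b₁ ∈ std Λ (B2 V) S₁ := mem_pb.1 (hle (mem_pb.2 hn.1))
  have h2 : c⁻¹ * x' * c ∈ std Λ (B2 V) S₁ := by
    have e : c⁻¹ * x' * c = b₁⁻¹ * β n * b₁ := by
      rw [hc, hx']
      group
    rw [e]
    exact h1
  have hsub : ∀ s, S₂ s → S₁ s := fun s hs => Mn_sub Λ (B2 V) hn h2 s hs
  refine ⟨hsub, ?_⟩
  have h3 := conj_std Λ (B2 V) (T := S₁) (T' := S₂) (x := c⁻¹ * x' * c) (c := c⁻¹) h2 (by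
    have e : (c⁻¹)⁻¹ * (c⁻¹ * x' * c) * c⁻¹ = x' := by group
    rw [e]
    exact hn.1)
  set d : P2 Λ := er Λ (B2 V) S₁ c⁻¹ with hd
  have hdm : d ∈ std Λ (B2 V) S₁ := er_mem Λ (B2 V) S₁ c⁻¹
  set t : P2 Λ := c * d with ht
  have h4 : t⁻¹ * x' * t ∈ std Λ (B2 V) S₂ := by
    have e : t⁻¹ * x' * t = d⁻¹ * (c⁻¹ * x' * c) * d := by
      rw [ht]
      group
    rw [e]
    exact std_mono Λ (B2 V) (fun v hv => hv.2) h3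
  set t' : P2 Λ := er Λ (B2 V) S₂ t with ht'
  have htm : t' ∈ std Λ (B2 V) S₂ := er_mem Λ (B2 V) S₂ t
  have h5 : t'⁻¹ * x' * t' = t⁻¹ * x' * t := by
    have e1 : er Λ (B2 V) S₂ (t⁻¹ * x' * t) = t⁻¹ * x' * t := (mem_std Λ (B2 V)).1 h4
    have e2 : er Λ (B2 V) S₂ x' = x' := (mem_std Λ (B2 V)).1 hn.1
    rw [← e1, map_mul, map_mul, map_inv, e2]
  have h6 : (t * t'⁻¹) * x' = x' * (t * t'⁻¹) := by
    have e : t * (t'⁻¹ * x' * t') * t'⁻¹ = t * (t⁻¹ * x' * t) * t'⁻¹ := by rw [h5]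
    have e1 : t * (t'⁻¹ * x' * t') * t'⁻¹ = t * t'⁻¹ * x' := by group
    have e2 : t * (t⁻¹ * x' * t) * t'⁻¹ = x' * (t * t'⁻¹) := by group
    rw [← e1, e, e2]
  obtain ⟨y1, hy1, y2, hy2, hy, _⟩ := hB3 V Λ (B2 V) S₂ x' hn (t * t'⁻¹) h6
  have hm1 : std Λ (B2 V) S₂ ≤ std Λ (B2 V) (fun v => S₂ v ∨ pp Λ S₂ v) :=
    std_mono Λ (B2 V) fun v hv => Or.inl hv
  have hm2 : std Λ (B2 V) (pp Λ S₂) ≤ std Λ (B2 V) (fun v => S₂ v ∨ pp Λ S₂ v) :=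
    std_mono Λ (B2 V) fun v hv => Or.inr hv
  have h7 : t ∈ std Λ (B2 V) (fun v => S₂ v ∨ pp Λ S₂ v) := by
    have e : t = (y1 * y2) * t' := by
      rw [← hy]
      group
    rw [e]
    exact mul_mem (mul_mem (hm1 hy1) (hm2 hy2)) (hm1 htm)
  refine ⟨d, hdm, t⁻¹, inv_mem h7, ?_⟩
  rw [ht, hc]
  group

end Pool.Agent.H670.QC
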